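import Pool.Agent.Lib.MP_1d770b_lc.Iter

/-!
In every model of ZFC the iterated sequence `C^{*n}` (`n < ω`) is uniformly definable and its
intersection `C^{*ω}` is a model of ZF.
-/

namespace Pool.Agent.Results.MP_1d770b_lc.LimitZF

open Pool.Agent.Lib.MP_1d770b_lc

universe u

theorem result {M : Type u} (E : M → M → Prop) (hZF : IsZF E) (hAC : Choice E) (w : M)
    (hw : IsOmega E w) :
    ∃ C : M → Set M, IsIter E w C ∧ Definable E (fun n x => x ∈ C n) ∧
      (∀ C' : M → Set M, IsIter E w C' →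
        (Definable E (fun n x => x ∈ C' n) ∨ WellFounded fun a b : {n // E n w} => E a.1 b.1) →
          ∀ n, E n w → C' n = C n) ∧
      IsZF (Res E {x | ∀ n, E n w → x ∈ C n}) := by
  have : ZF E := ⟨hZF⟩
  have : Nonempty M := ⟨w⟩
  obtain ⟨C, hC, dC⟩ := ex_iter hAC hw
  refine ⟨C, hC, D2.definable dC, fun C' hC' h => ?_, limit_zf hAC hw hC dC⟩
  rcases h with h | h
  · exact iter_agree' hw hC' hC (D2.of_definable h) dC
  · exact iter_agree hw hC' hC h

end Pool.Agent.Results.MP_1d770b_lc.LimitZF
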